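import Pool.Agent.W761.CP.Defs

set_option autoImplicit false

open MeasureTheory LineDeriv
open scoped ENNReal FourierTransform SchwartzMap InnerProductSpace ContDiff

namespace Pool.Agent.W856.CP
open Pool.Agent.Helper209.CX (Ed L2d InH1 dirichlet IsHu)
open Pool.Agent.W761.CP

noncomputable section

variable {d : ℕ}

lemma pair (f : L2d d) (ψ : 𝓢(Ed d, ℂ)) :
    ∫ x, (𝓕 f : L2d d) x * ψ x = ∫ x, f x * (𝓕 ψ : 𝓢(Ed d, ℂ)) x := by
  have h := Lp.fourier_toTemperedDistribution_eq (E := Ed d) (F := ℂ) f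
  have h1 := congrArg (fun T : 𝓢'(Ed d, ℂ) => T ψ) h
  simp only [TemperedDistribution.fourier_apply, Lp.toTemperedDistribution_apply,
    smul_eq_mul] at h1
  simp only [mul_comm] at h1 ⊢
  exact h1.symm

/-- the multiplied function -/
def mk (k : Fin d) (ψ : 𝓢(Ed d, ℂ)) : 𝓢(Ed d, ℂ) :=
  -(2 * Real.pi * Complex.I) • SchwartzMap.smulLeftCLM ℂ (inner ℝ · (ev k)) ψ

lemma mk_apply (k : Fin d) (ψ : 𝓢(Ed d, ℂ)) (x : Ed d) :
    mk k ψ x = -(2 * Real.pi * Complex.I * (x k : ℂ)) * ψ x := by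
  have hT : (inner ℝ · (ev k : Ed d)).HasTemperateGrowth := by fun_prop
  have hi : inner ℝ x (ev k : Ed d) = x k := by
    unfold ev
    rw [EuclideanSpace.inner_single_right]
    simp
  unfold mk
  rw [smul_apply, SchwartzMap.smulLeftCLM_apply_apply hT, hi]
  simp only [smul_eq_mul, Complex.real_smul]
  ring

lemma deriv_fourier (k : Fin d) (ψ : 𝓢(Ed d, ℂ)) (x : Ed d) :
    fderiv ℝ (fun y => (𝓕 ψ : 𝓢(Ed d, ℂ)) y) x (ev k) = (𝓕 (mk k ψ) : 𝓢(Ed d, ℂ)) x := by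
  have h := SchwartzMap.lineDerivOp_fourier_eq ψ (ev k : Ed d)
  have h1 : fderiv ℝ (fun y => (𝓕 ψ : 𝓢(Ed d, ℂ)) y) x (ev k) =
      (∂_{(ev k : Ed d)} (𝓕 ψ : 𝓢(Ed d, ℂ))) x := rfl
  rw [h1, h]
  rfl

lemma neg_int (f : L2d d) (k : Fin d) (ψ : 𝓢(Ed d, ℂ)) :
    ∫ x, f x * (mk k ψ) x = - ∫ x : Ed d, (2 * Real.pi * Complex.I * (x k : ℂ) * f x) * ψ x := by
  rw [← integral_neg]
  congr 1
  funext x
  rw [mk_apply]
  ring

theorem ft : S_FT := by
  intro d u g
  constructor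
  · intro h k
    have hkey : ∀ ψ : 𝓢(Ed d, ℂ), ∫ x, (𝓕 (g k) : L2d d) x * ψ x =
        ∫ x : Ed d, (2 * Real.pi * Complex.I * (x k : ℂ) * (𝓕 u : L2d d) x) * ψ x := by
      intro ψ
      have h1 := h (𝓕 ψ) k
      rw [pair, ← neg_neg (∫ x, (g k) x * (𝓕 ψ : 𝓢(Ed d, ℂ)) x), ← h1]
      have h2 : ∫ x, u x * fderiv ℝ (fun y => (𝓕 ψ : 𝓢(Ed d, ℂ)) y) x (ev k) =
          ∫ x, u x * (𝓕 (mk k ψ) : 𝓢(Ed d, ℂ)) x := by
        congr 1
        funext x
        rw [deriv_fourier]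
      rw [h2, ← pair, neg_int, neg_neg]
    have hL1 : LocallyIntegrable (fun x : Ed d => (𝓕 (g k) : L2d d) x) volume :=
      (Lp.memLp _).locallyIntegrable (by norm_num)
    have hL2 : LocallyIntegrable (fun x : Ed d => 2 * Real.pi * Complex.I * (x k : ℂ) *
        (𝓕 u : L2d d) x) volume := by
      have h0 : LocallyIntegrable (fun x : Ed d => (𝓕 u : L2d d) x) volume :=
        (Lp.memLp _).locallyIntegrable (by norm_num)
      have hc : Continuous fun x : Ed d => 2 * Real.pi * Complex.I * (x k : ℂ) := by fun_prop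
      rw [locallyIntegrable_iff] at h0 ⊢
      intro K hK
      exact (h0 K hK).continuousOn_mul hc.continuousOn hK
    have hae := ae_eq_zero_of_integral_contDiff_smul_eq_zero (μ := (volume : Measure (Ed d)))
      (f := fun x : Ed d => (𝓕 (g k) : L2d d) x - 2 * Real.pi * Complex.I * (x k : ℂ) *
        (𝓕 u : L2d d) x) (hL1.sub hL2) (by
      intro η hη hηc
      have hg₁ : HasCompactSupport (fun x => ((η x : ℝ) : ℂ)) :=
        hηc.comp_left (g := fun r : ℝ => (r : ℂ)) (by simp)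
      have hg₂ : ContDiff ℝ ∞ (fun x => ((η x : ℝ) : ℂ)) := Complex.ofRealCLM.contDiff.comp hη
      have h3 := hkey (hg₁.toSchwartzMap hg₂)
      have i1 := hL1.integrable_smul_left_of_hasCompactSupport (g := η) hη.continuous hηc
      have i2 := hL2.integrable_smul_left_of_hasCompactSupport (g := η) hη.continuous hηc
      simp only [smul_sub]
      rw [integral_sub i1 i2, sub_eq_zero]
      simp only [Complex.real_smul]
      simp only [HasCompactSupport.toSchwartzMap_toFun] at h3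
      have e1 : ∀ f : Ed d → ℂ, ∫ x, ((η x : ℝ) : ℂ) * f x = ∫ x, f x * ((η x : ℝ) : ℂ) :=
        fun f => by simp only [mul_comm]
      rw [e1, e1]
      exact h3)
    filter_upwards [hae] with x hx
    exact sub_eq_zero.1 hx
  · intro h φ k
    obtain ⟨ψ, hψ⟩ : ∃ ψ : 𝓢(Ed d, ℂ), 𝓕 ψ = φ :=
      ⟨𝓕⁻ φ, FourierTransform.fourier_fourierInv_eq φ⟩
    rw [← hψ]
    have h2 : ∫ x, u x * fderiv ℝ (fun y => (𝓕 ψ : 𝓢(Ed d, ℂ)) y) x (ev k) =
        ∫ x, u x * (𝓕 (mk k ψ) : 𝓢(Ed d, ℂ)) x := by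
      congr 1
      funext x
      rw [deriv_fourier]
    rw [h2, ← pair, neg_int, ← pair]
    congr 1
    apply integral_congr_ae
    filter_upwards [h k] with x hx
    rw [hx]

end

end Pool.Agent.W856.CP
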